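import Pool.Agent.H2.ST.Targets

/-!
Symplectic torus actions (MP_51eb24_ag), row ONE: existence of one-parameter data.
-/

set_option autoImplicit false

open Pool.Agent.H2.ST MvPolynomial

namespace Pool.Agent.H38.ST2

theorem wtm_one {m : ℕ} (w : Fin m → ℤ) (i0 : Fin m) (hw : ∀ j, j ≠ i0 → w j = 0)
    (α : Fin m ⊕ Fin m →₀ ℕ) :
    wtm w α = ((α (Sum.inl i0) : ℤ) - (α (Sum.inr i0) : ℤ)) * w i0 := by
  unfold wtm
  rw [Finset.sum_eq_single i0]
  · rw [smul_eq_mul]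
  · intro j _ hj
    rw [hw j hj, smul_zero]
  · intro h
    exact absurd (Finset.mem_univ _) h

theorem pow_dvd_of {k : Type} [Field k] {m : ℕ} {p t s f : Pol k m} (hp : Prime p)
    (p0 : constantCoeff p = 0) (hs : constantCoeff s ≠ 0) (j : ℕ)
    (h : (p * t) ^ j ∣ s * f) : p ^ j ∣ f := by
  refine hp.pow_dvd_of_dvd_mul_left (a := s) j ?_ ?_
  · rintro ⟨c, hc⟩
    apply hs
    rw [hc, map_mul, p0, zero_mul]
  · refine dvd_trans ?_ h
    rw [mul_pow]
    exact dvd_mul_right _ _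

theorem quot_mem {k : Type} [Field k] {m : ℕ} {W : ℤ → Submodule k (Pol k m)} (h : Gr W)
    {a : ℤ} {p f g : Pol k m} (hp : p ∈ W a) (hne : p ≠ 0) (j : ℕ) (hf : f ∈ W (j • a))
    (hfg : f = p ^ j * g) : g ∈ W 0 := by
  refine mem_of_cmp h fun b hb => ?_
  have h1 := cmp_mul_of_mem h (pow_mem_gr h hp j) g b
  rw [mul_comm g (p ^ j), ← hfg, cmp_of_mem h hf, Finsupp.single_apply, if_neg] at h1
  · have h2 : cmp h g b * p ^ j = 0 := h1.symm
    rcases mul_eq_zero.1 h2 with h3 | h3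
    · exact h3
    · exact absurd h3 (pow_ne_zero _ hne)
  · intro he
    apply hb
    have : b = b + j • a - j • a := by ring
    rw [this, ← he, sub_self]

theorem pf_ONE (h1 : T_KRL) : T_ONE := by
  intro k _ m W y w i0 u v su sv hP hA hw hw0 hu hv u0 v0 hum hvm hyu hyv
  have key := h1 k m ℤ W y w hP hA
  refine ⟨hP, hw, hu, hv, hum, hvm, u0, v0, ?_, ?_, ?_⟩
  · intro j f hf
    obtain ⟨s, hs, hd⟩ := (key (w i0 * j) f hf).2 (Sum.inl i0) j (fun α hα => by
      rw [wtm_one w i0 hw0, mul_comm (w i0)] at hα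
      have := mul_right_cancel₀ hw.ne' hα
      omega)
    rw [hyu] at hd
    obtain ⟨g, hg⟩ := pow_dvd_of hu u0 hs j hd
    refine ⟨g, quot_mem hP.toGr hum hu.ne_zero j ?_ hg, hg⟩
    rw [nsmul_eq_mul, mul_comm]
    exact hf
  · intro j f hf
    obtain ⟨s, hs, hd⟩ := (key (-(w i0 * j)) f hf).2 (Sum.inr i0) j (fun α hα => by
      rw [wtm_one w i0 hw0] at hα
      have h2 : ((α (Sum.inl i0) : ℤ) - (α (Sum.inr i0) : ℤ)) * w i0 = (-(j : ℤ)) * w i0 := by
        rw [hα]; ring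
      have := mul_right_cancel₀ hw.ne' h2
      omega)
    rw [hyv] at hd
    obtain ⟨g, hg⟩ := pow_dvd_of hv v0 hs j hd
    refine ⟨g, quot_mem hP.toGr hvm hv.ne_zero j ?_ hg, hg⟩
    rw [nsmul_eq_mul]
    have e : (j : ℤ) * -(w i0) = -(w i0 * j) := by ring
    rw [e]
    exact hf
  · intro e he f hf
    refine (key e f hf).1 fun α hα => he ?_
    rw [wtm_one w i0 hw0] at hα
    rw [← hα]
    exact dvd_mul_left _ _

end Pool.Agent.H38.ST2
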